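import Pool.Agent.W_MP_3ca6e9_an.Ball

/-!
# Calderon-Lozanovskii modifications of solid convex sets
-/

namespace Pool.Agent.W_MP_3ca6e9_an

open Set

/-- The odd extension of an Orlicz function. -/
noncomputable def odd (M : ℝ → ℝ) (t : ℝ) : ℝ := if 0 ≤ t then M t else -M (-t)

theorem abs_odd {M : ℝ → ℝ} (hM : IsOrlicz M) (t : ℝ) : |odd M t| = M |t| := by
  unfold odd
  split_ifs with h
  · rw [abs_of_nonneg (hM.nonneg h), abs_of_nonneg h]
  · push Not at h
    rw [abs_neg, abs_of_nonneg (hM.nonneg (by linarith)), abs_of_neg h]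

theorem odd_strictMono {M : ℝ → ℝ} (hM : IsOrlicz M) : StrictMono (odd M) := by
  intro s t hst
  unfold odd
  split_ifs with h1 h2 h2
  · exact hM.strictMono h1 hst
  · exact absurd (h1.trans hst.le) h2
  · push Not at h1
    have h3 := hM.pos (-s) (by linarith)
    have h4 := hM.nonneg h2
    linarith
  · push Not at h1 h2
    have := hM.strictMono (s := -t) (t := -s) (by linarith) (by linarith)
    linarith

theorem odd_surjective {M : ℝ → ℝ} (hM : IsOrlicz M) : Function.Surjective (odd M) := by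
  intro y
  rcases le_or_gt 0 y with h | h
  · obtain ⟨t, ht, hty⟩ := hM.exists_eq h
    exact ⟨t, by rw [odd, if_pos ht, hty]⟩
  · obtain ⟨t, ht, hty⟩ := hM.exists_eq (y := -y) (by linarith)
    have ht0 : t ≠ 0 := by
      rintro rfl
      rw [hM.zero] at hty
      linarith
    have ht' : 0 < t := lt_of_le_of_ne ht (Ne.symm ht0)
    refine ⟨-t, ?_⟩
    rw [odd, if_neg (by linarith), neg_neg, hty, neg_neg]

/-- `odd` as a homeomorphism of the line. -/
noncomputable def oddHomeo {M : ℝ → ℝ} (hM : IsOrlicz M) : ℝ ≃ₜ ℝ :=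
  ((odd_strictMono hM).orderIsoOfSurjective _ (odd_surjective hM)).toHomeomorph

variable {Γ : Type} {M : Γ → ℝ → ℝ} {L : Set (Γ → ℝ)}

theorem solid_iff (hL : IsSolidSet L) {x y : Γ → ℝ} (h : ∀ γ, |x γ| = |y γ|) : x ∈ L ↔ y ∈ L :=
  ⟨fun hx => hL x hx y (fun γ => (h γ).symm.le), fun hy => hL y hy x (fun γ => (h γ).le)⟩

theorem nonempty_modification_homeo (hM : ∀ γ, IsOrlicz (M γ)) (hL : IsSolidSet L) :
    Nonempty (modification M L ≃ₜ L) := by
  refine ⟨(Homeomorph.piCongrRight (fun γ => oddHomeo (hM γ))).subtype (fun x => ?_)⟩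
  show (fun γ => M γ |x γ|) ∈ L ↔ (fun γ => odd (M γ) (x γ)) ∈ L
  apply solid_iff hL
  intro γ
  rw [abs_odd (hM γ), abs_of_nonneg ((hM γ).nonneg (abs_nonneg _))]

theorem convex_modification (hM : ∀ γ, IsOrlicz (M γ)) (hL : IsSolidSet L) (hc : Convex ℝ L) :
    Convex ℝ (modification M L) := by
  intro x hx y hy a b ha hb hab
  have h1 := hc hx hy ha hb hab
  refine hL _ h1 _ (fun γ => ?_)
  have hnn : 0 ≤ M γ |(a • x + b • y) γ| := (hM γ).nonneg (abs_nonneg _)
  rw [abs_of_nonneg hnn]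
  refine le_trans ?_ (le_abs_self _)
  have h2 : |(a • x + b • y) γ| ≤ a * |x γ| + b * |y γ| := by
    simp only [Pi.add_apply, Pi.smul_apply, smul_eq_mul]
    refine (abs_add_le _ _).trans ?_
    rw [abs_mul, abs_mul, abs_of_nonneg ha, abs_of_nonneg hb]
  refine ((hM γ).mono (abs_nonneg _) h2).trans ?_
  exact (hM γ).convex.2 (mem_Ici.mpr (abs_nonneg _)) (mem_Ici.mpr (abs_nonneg _)) ha hb hab

end Pool.Agent.W_MP_3ca6e9_an
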