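import Pool.Agent.W_MP_3ca6e9_an.Defs

/-!
# A Musielak-Orlicz ball is homeomorphic to the weak ball of a Hilbert space
-/

namespace Pool.Agent.W_MP_3ca6e9_an

open Set Filter Topology

/-! ### Orlicz functions -/

theorem IsOrlicz.nonneg {M : ℝ → ℝ} (hM : IsOrlicz M) {t : ℝ} (ht : 0 ≤ t) : 0 ≤ M t := by
  rcases ht.eq_or_lt with h | h
  · rw [← h, hM.zero]
  · exact (hM.pos t h).le

theorem IsOrlicz.smul_le {M : ℝ → ℝ} (hM : IsOrlicz M) {t a : ℝ} (ht : 0 ≤ t) (ha : 0 ≤ a)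
    (ha1 : a ≤ 1) : M (a * t) ≤ a * M t := by
  have h := hM.convex.2 (x := t) (y := 0) ht (le_refl (0 : ℝ)) ha (sub_nonneg.mpr ha1) (by ring)
  simpa [hM.zero] using h

theorem IsOrlicz.strictMono {M : ℝ → ℝ} (hM : IsOrlicz M) {s t : ℝ} (hs : 0 ≤ s) (hst : s < t) :
    M s < M t := by
  have ht : 0 < t := lt_of_le_of_lt hs hst
  have h := hM.smul_le ht.le (a := s / t) (by positivity) (by rw [div_le_one ht]; exact hst.le)
  rw [div_mul_cancel₀ _ ht.ne'] at h
  have h1 : s / t < 1 := by rw [div_lt_one ht]; exact hst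
  have h2 := hM.pos t ht
  nlinarith

theorem IsOrlicz.mono {M : ℝ → ℝ} (hM : IsOrlicz M) {s t : ℝ} (hs : 0 ≤ s) (hst : s ≤ t) :
    M s ≤ M t := by
  rcases hst.eq_or_lt with h | h
  · rw [h]
  · exact (hM.strictMono hs h).le

theorem IsOrlicz.exists_eq {M : ℝ → ℝ} (hM : IsOrlicz M) {y : ℝ} (hy : 0 ≤ y) :
    ∃ t, 0 ≤ t ∧ M t = y := by
  have h1 := hM.pos 1 one_pos
  let T := max 1 (y / M 1)
  have hT1 : (1 : ℝ) ≤ T := le_max_left _ _
  have hT0 : (0 : ℝ) < T := lt_of_lt_of_le one_pos hT1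
  have hMT : y ≤ M T := by
    have h := hM.smul_le hT0.le (a := 1 / T) (by positivity) (by rw [div_le_one hT0]; exact hT1)
    rw [one_div, inv_mul_cancel₀ hT0.ne'] at h
    have h2 : T * M 1 ≤ M T := by
      have := mul_le_mul_of_nonneg_left h hT0.le
      rwa [← mul_assoc, mul_inv_cancel₀ hT0.ne', one_mul] at this
    have h3 : y / M 1 ≤ T := le_max_right _ _
    rw [div_le_iff₀ h1] at h3
    linarith
  have hivt := intermediate_value_Icc hT0.le (hM.cont.mono (fun x hx => hx.1))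
  have : y ∈ Icc (M 0) (M T) := ⟨by rw [hM.zero]; exact hy, hMT⟩
  obtain ⟨t, ht, hty⟩ := hivt this
  exact ⟨t, ht.1, hty⟩

/-- The odd function with `G(t)² = M(|t|)`. -/
noncomputable def G (M : ℝ → ℝ) (t : ℝ) : ℝ := if 0 ≤ t then √(M t) else -√(M (-t))

theorem G_sq {M : ℝ → ℝ} (hM : IsOrlicz M) (t : ℝ) : G M t ^ 2 = M |t| := by
  unfold G
  split_ifs with h
  · rw [Real.sq_sqrt (hM.nonneg h), abs_of_nonneg h]
  · push Not at h
    rw [neg_sq, Real.sq_sqrt (hM.nonneg (by linarith)), abs_of_neg h]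

theorem G_strictMono {M : ℝ → ℝ} (hM : IsOrlicz M) : StrictMono (G M) := by
  intro s t hst
  unfold G
  split_ifs with h1 h2 h2
  · exact Real.sqrt_lt_sqrt (hM.nonneg h1) (hM.strictMono h1 hst)
  · exact absurd (h1.trans hst.le) h2
  · push Not at h1
    have h3 : 0 < √(M (-s)) := Real.sqrt_pos.mpr (hM.pos _ (by linarith))
    have h4 := Real.sqrt_nonneg (M t)
    linarith
  · push Not at h1 h2
    have := Real.sqrt_lt_sqrt (hM.nonneg (by linarith)) (hM.strictMono (s := -t) (t := -s)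
      (by linarith) (by linarith))
    linarith

theorem G_surjective {M : ℝ → ℝ} (hM : IsOrlicz M) : Function.Surjective (G M) := by
  intro y
  rcases le_or_gt 0 y with h | h
  · obtain ⟨t, ht, hty⟩ := hM.exists_eq (sq_nonneg y)
    exact ⟨t, by rw [G, if_pos ht, hty, Real.sqrt_sq h]⟩
  · obtain ⟨t, ht, hty⟩ := hM.exists_eq (sq_nonneg y)
    have ht0 : t ≠ 0 := by
      rintro rfl
      rw [hM.zero] at hty
      have : 0 < y ^ 2 := by nlinarith
      linarith
    have ht' : 0 < t := lt_of_le_of_ne ht (Ne.symm ht0)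
    refine ⟨-t, ?_⟩
    rw [G, if_neg (by linarith), neg_neg, hty, Real.sqrt_sq_eq_abs, abs_of_neg h, neg_neg]

/-- `G` as a homeomorphism of the line. -/
noncomputable def Ghomeo {M : ℝ → ℝ} (hM : IsOrlicz M) : ℝ ≃ₜ ℝ :=
  ((G_strictMono hM).orderIsoOfSurjective _ (G_surjective hM)).toHomeomorph

theorem Ghomeo_apply {M : ℝ → ℝ} (hM : IsOrlicz M) (t : ℝ) : Ghomeo hM t = G M t := rfl

/-! ### The Euclidean ball with the product topology -/

/-- The set of `y` with `∑ y_γ² ≤ 1`. -/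
def euBall (Γ : Type) : Set (Γ → ℝ) := {y | ∀ F : Finset Γ, ∑ γ ∈ F, y γ ^ 2 ≤ 1}

/-- The coordinatewise homeomorphism. -/
noncomputable def moHomeo {Γ : Type} {M : Γ → ℝ → ℝ} (hM : ∀ γ, IsOrlicz (M γ)) :
    moBall M ≃ₜ euBall Γ :=
  (Homeomorph.piCongrRight (fun γ => Ghomeo (hM γ))).subtype (fun x => by
    show (∀ F : Finset Γ, ∑ γ ∈ F, M γ |x γ| ≤ 1) ↔ ∀ F : Finset Γ, ∑ γ ∈ F, G (M γ) (x γ) ^ 2 ≤ 1
    simp only [G_sq (hM _)])

theorem isCompact_euBall (Γ : Type) : IsCompact (euBall Γ) := by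
  have h1 : IsCompact (Set.pi univ (fun _ : Γ => Icc (-1 : ℝ) 1)) :=
    isCompact_univ_pi (fun _ => isCompact_Icc)
  refine h1.of_isClosed_subset ?_ ?_
  · have : euBall Γ = ⋂ F : Finset Γ, {y | ∑ γ ∈ F, y γ ^ 2 ≤ 1} := by
      ext y; simp [euBall]
    rw [this]
    refine isClosed_iInter (fun F => isClosed_le ?_ continuous_const)
    exact continuous_finsetSum _ (fun γ _ => (continuous_apply γ).pow 2)
  · intro y hy γ _
    have h := hy {γ}
    rw [Finset.sum_singleton] at h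
    exact abs_le.mp (by rwa [sq_le_one_iff_abs_le_one] at h)

section hilbert

/-- The closed unit ball of the real Hilbert space `ℓ²(Γ)`, with the weak topology. -/
abbrev hilbertBall (Γ : Type) : Set (WeakSpace ℝ (lp (fun _ : Γ => ℝ) 2)) :=
  weakBall (lp (fun _ : Γ => ℝ) 2)

variable {Γ : Type}

theorem memlp_of_euBall {y : Γ → ℝ} (hy : y ∈ euBall Γ) :
    Memℓp (E := fun _ : Γ => ℝ) y 2 := by
  rw [memℓp_gen_iff (by norm_num)]
  apply summable_of_sum_le (c := 1)
  · intro i; positivity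
  · intro F
    have := hy F
    simpa using this

/-- The element of `ℓ²` given by a point of the Euclidean ball. -/
noncomputable def toL2 (y : euBall Γ) : lp (fun _ : Γ => ℝ) 2 := ⟨y.1, memlp_of_euBall y.2⟩

theorem toL2_apply (y : euBall Γ) (γ : Γ) : toL2 y γ = y.1 γ := rfl

theorem norm_toL2_le (y : euBall Γ) : ‖toL2 y‖ ≤ 1 := by
  apply lp.norm_le_of_forall_sum_le (by norm_num) zero_le_one
  intro F
  have := y.2 F
  simpa [toL2_apply] using this

theorem mem_euBall_of_norm {f : lp (fun _ : Γ => ℝ) 2} (hf : ‖f‖ ≤ 1) : (f : Γ → ℝ) ∈ euBall Γ := by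
  intro F
  have h := lp.sum_rpow_le_norm_rpow (p := 2) (by norm_num) f F
  have h2 : ‖f‖ ^ (2 : ℝ) ≤ 1 := Real.rpow_le_one (norm_nonneg _) hf (by norm_num)
  have h3 : ∑ γ ∈ F, f γ ^ 2 = ∑ i ∈ F, ‖f i‖ ^ (2 : ENNReal).toReal := by
    refine Finset.sum_congr rfl (fun γ _ => ?_)
    simp
  rw [h3]
  refine h.trans ?_
  simpa using h2

/-- The bijection between the Euclidean ball and the unit ball of `ℓ²`. -/
noncomputable def ballEquiv : euBall Γ ≃ hilbertBall Γ where
  toFun y := ⟨toWeakSpace ℝ _ (toL2 y), by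
    show ‖(toWeakSpace ℝ _).symm (toWeakSpace ℝ _ (toL2 y))‖ ≤ 1
    rw [LinearEquiv.symm_apply_apply]
    exact norm_toL2_le y⟩
  invFun z := ⟨((toWeakSpace ℝ (lp (fun _ : Γ => ℝ) 2)).symm z.1 : lp (fun _ : Γ => ℝ) 2),
    mem_euBall_of_norm z.2⟩
  left_inv y := by
    apply Subtype.ext
    rfl
  right_inv z := by
    apply Subtype.ext
    rfl

theorem continuous_inner_toL2 (v : lp (fun _ : Γ => ℝ) 2) :
    Continuous (fun y : euBall Γ => (inner ℝ v (toL2 y) : ℝ)) := by
  classical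
  have hsum : HasSum (fun i : Γ => lp.single 2 i (v i)) v :=
    lp.hasSum_single ENNReal.ofNat_ne_top v
  have hunif : TendstoUniformly
      (fun (F : Finset Γ) (y : euBall Γ) => (inner ℝ (∑ i ∈ F, lp.single 2 i (v i)) (toL2 y) : ℝ))
      (fun y => (inner ℝ v (toL2 y) : ℝ)) atTop := by
    rw [Metric.tendstoUniformly_iff]
    intro ε hε
    have h1 := (Metric.tendsto_nhds.mp hsum) ε hε
    filter_upwards [h1] with F hF y
    rw [Real.dist_eq, ← inner_sub_left]
    refine lt_of_le_of_lt (abs_real_inner_le_norm _ _) ?_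
    refine lt_of_le_of_lt (mul_le_mul_of_nonneg_left (norm_toL2_le y) (norm_nonneg _)) ?_
    rw [mul_one, ← dist_eq_norm, dist_comm]
    exact hF
  refine hunif.continuous (Frequently.of_forall (fun F => ?_))
  have h2 : (fun y : euBall Γ => (inner ℝ (∑ i ∈ F, lp.single 2 i (v i)) (toL2 y) : ℝ)) =
      fun y => ∑ i ∈ F, v i * y.1 i := by
    funext y
    rw [sum_inner]
    refine Finset.sum_congr rfl (fun i _ => ?_)
    rw [lp.inner_single_left]
    simp [toL2_apply, mul_comm]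
  rw [h2]
  exact continuous_finsetSum _ (fun i _ =>
    continuous_const.mul ((continuous_apply i).comp continuous_subtype_val))

theorem continuous_ballEquiv : Continuous (ballEquiv (Γ := Γ)) := by
  refine Continuous.subtype_mk ?_ _
  apply WeakBilin.continuous_of_continuous_eval
  intro l
  obtain ⟨v, hv⟩ := (InnerProductSpace.toDual ℝ (lp (fun _ : Γ => ℝ) 2)).surjective l
  have : (fun y : euBall Γ => (topDualPairing ℝ (lp (fun _ : Γ => ℝ) 2)).flip
      (toWeakSpace ℝ _ (toL2 y)) l) = fun y => (inner ℝ v (toL2 y) : ℝ) := by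
    funext y
    rw [← hv]
    rfl
  rw [this]
  exact continuous_inner_toL2 v

instance weakSpace_t2 (Y : Type*) [NormedAddCommGroup Y] [NormedSpace ℝ Y] :
    T2Space (WeakSpace ℝ Y) := by
  have hinj : Function.Injective (topDualPairing ℝ Y).flip := by
    intro x y hxy
    by_contra hne
    obtain ⟨f, hf⟩ := SeparatingDual.exists_separating_of_ne (R := ℝ) hne
    exact hf (LinearMap.congr_fun hxy f)
  exact (WeakBilin.isEmbedding hinj).t2Space

/-- The homeomorphism between the Euclidean ball with the product topology and the weak unit ball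
of `ℓ²`. -/
noncomputable def ballHomeo : euBall Γ ≃ₜ hilbertBall Γ :=
  haveI : CompactSpace (euBall Γ) := isCompact_iff_compactSpace.mp (isCompact_euBall Γ)
  Continuous.homeoOfEquivCompactToT2 (f := ballEquiv) continuous_ballEquiv

end hilbert

variable {Γ : Type} {M : Γ → ℝ → ℝ}

theorem nonempty_homeo (hM : ∀ γ, IsOrlicz (M γ)) : Nonempty (moBall M ≃ₜ hilbertBall Γ) :=
  ⟨(moHomeo hM).trans ballHomeo⟩

theorem isHilbertBall_moBall (hM : ∀ γ, IsOrlicz (M γ)) : IsHilbertBall (moBall M) :=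
  ⟨lp (fun _ : Γ => ℝ) 2, inferInstance, inferInstance, inferInstance, nonempty_homeo hM⟩

theorem isCompact_moBall (hM : ∀ γ, IsOrlicz (M γ)) : IsCompact (moBall M) := by
  rw [isCompact_iff_compactSpace]
  have : CompactSpace (euBall Γ) := isCompact_iff_compactSpace.mp (isCompact_euBall Γ)
  exact (moHomeo hM).symm.compactSpace

theorem convex_moBall (hM : ∀ γ, IsOrlicz (M γ)) : Convex ℝ (moBall M) := by
  intro x hx y hy a b ha hb hab F
  have key : ∀ γ, M γ |(a • x + b • y) γ| ≤ a * M γ |x γ| + b * M γ |y γ| := by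
    intro γ
    have h1 : |(a • x + b • y) γ| ≤ a * |x γ| + b * |y γ| := by
      simp only [Pi.add_apply, Pi.smul_apply, smul_eq_mul]
      refine (abs_add_le _ _).trans ?_
      rw [abs_mul, abs_mul, abs_of_nonneg ha, abs_of_nonneg hb]
    refine ((hM γ).mono (abs_nonneg _) h1).trans ?_
    exact (hM γ).convex.2 (mem_Ici.mpr (abs_nonneg _)) (mem_Ici.mpr (abs_nonneg _)) ha hb hab
  calc ∑ γ ∈ F, M γ |(a • x + b • y) γ| ≤ ∑ γ ∈ F, (a * M γ |x γ| + b * M γ |y γ|) :=
        Finset.sum_le_sum (fun γ _ => key γ)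
    _ = a * ∑ γ ∈ F, M γ |x γ| + b * ∑ γ ∈ F, M γ |y γ| := by
        rw [Finset.sum_add_distrib, Finset.mul_sum, Finset.mul_sum]
    _ ≤ a * 1 + b * 1 :=
        add_le_add (mul_le_mul_of_nonneg_left (hx F) ha) (mul_le_mul_of_nonneg_left (hy F) hb)
    _ = 1 := by rw [mul_one, mul_one, hab]

end Pool.Agent.W_MP_3ca6e9_an
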