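import Mathlib

/-!
# Musielak-Orlicz balls, the weak Hilbert ball, dual balls
-/

namespace Pool.Agent.W_MP_3ca6e9_an

/-- Orlicz functions: continuous convex functions on `[0, ∞)` vanishing exactly at `0`. -/
structure IsOrlicz (M : ℝ → ℝ) : Prop where
  zero : M 0 = 0
  pos : ∀ t, 0 < t → 0 < M t
  convex : ConvexOn ℝ (Set.Ici 0) M
  cont : ContinuousOn M (Set.Ici 0)

/-- A solid subset of `ℝ^Γ`: membership only depends on the sizes of the coordinates, and is
preserved when they decrease. -/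
def IsSolidSet {Γ : Type} (L : Set (Γ → ℝ)) : Prop :=
  ∀ x ∈ L, ∀ y : Γ → ℝ, (∀ γ, |y γ| ≤ |x γ|) → y ∈ L

/-- The Calderon-Lozanovskii modification `{x ∈ ℝ^Γ : (M_γ(|x_γ|))_γ ∈ L}` of `L ⊆ ℝ^Γ`. -/
def modification {Γ : Type} (M : Γ → ℝ → ℝ) (L : Set (Γ → ℝ)) : Set (Γ → ℝ) :=
  {x | (fun γ => M γ |x γ|) ∈ L}

/-- The Musielak-Orlicz ball `{x ∈ ℝ^Γ : ∑_γ M_γ(|x_γ|) ≤ 1}`, a subset of `ℝ^Γ` with the product
topology. -/
def moBall {Γ : Type} (M : Γ → ℝ → ℝ) : Set (Γ → ℝ) :=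
  {x | ∀ F : Finset Γ, ∑ γ ∈ F, M γ |x γ| ≤ 1}

/-- The closed unit ball of `H`, with the weak topology. -/
def weakBall (H : Type) [NormedAddCommGroup H] [NormedSpace ℝ H] : Set (WeakSpace ℝ H) :=
  {y | ‖(toWeakSpace ℝ H).symm y‖ ≤ 1}

/-- The space `K` is homeomorphic to the closed unit ball of a real Hilbert space, with the weak
topology. -/
def IsHilbertBall (K : Type) [TopologicalSpace K] : Prop :=
  ∃ (H : Type) (_ : NormedAddCommGroup H) (_ : InnerProductSpace ℝ H) (_ : CompleteSpace H),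
    Nonempty (K ≃ₜ weakBall H)

/-- The closed unit ball of the dual of `X`, with the weak-* topology. -/
def dualBall (X : Type) [NormedAddCommGroup X] [NormedSpace ℝ X] : Set (WeakDual ℝ X) :=
  {f | ‖WeakDual.toStrongDual f‖ ≤ 1}

/-- `g` is an injective continuous affine map on the dual ball of `X`, with the weak-* topology,
with values in `Y` with the weak topology. -/
structure IsAffineEmbedding {X : Type} [NormedAddCommGroup X] [NormedSpace ℝ X] {Y : Type*}
    [NormedAddCommGroup Y] [NormedSpace ℝ Y] (g : WeakDual ℝ X → WeakSpace ℝ Y) : Prop where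
  cont : ContinuousOn g (dualBall X)
  inj : Set.InjOn g (dualBall X)
  affine : ∀ x ∈ dualBall X, ∀ y ∈ dualBall X, ∀ a b : ℝ, 0 ≤ a → 0 ≤ b → a + b = 1 →
    g (a • x + b • y) = a • g x + b • g y

end Pool.Agent.W_MP_3ca6e9_an
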