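import Pool.Agent.W_MP_3ca6e9_an.NoAffine

/-!
# A Musielak-Orlicz ball as the dual ball of a Banach space
-/

namespace Pool.Agent.W_MP_3ca6e9_an

open Set Filter Topology BoundedContinuousFunction

section

variable {Γ : Type} {M : Γ → ℝ → ℝ} {E : Type} [NormedAddCommGroup E] [NormedSpace ℝ E]

variable (M E) in
/-- A normed space `E` of functions on the ball, with the supremum norm, containing the
coordinate functions. -/
structure FunSpace where
  /-- the coordinate functions -/
  e : Γ → E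
  /-- the evaluation functionals -/
  δ : moBall M → StrongDual ℝ E
  δ_e : ∀ x γ, δ x (e γ) = x.1 γ
  cont : ∀ b, Continuous (fun x => δ x b)
  le_norm : ∀ x b, |δ x b| ≤ ‖b‖
  norm_le : ∀ b s, 0 ≤ s → (∀ x, |δ x b| ≤ s) → ‖b‖ ≤ s

variable (S : FunSpace M E)

/-- The closed span of the coordinate functions. -/
noncomputable def XX : Submodule ℝ E := (Submodule.span ℝ (range S.e)).topologicalClosure

theorem coord_mem (γ : Γ) : S.e γ ∈ XX S :=
  Submodule.le_topologicalClosure _ (Submodule.subset_span ⟨γ, rfl⟩)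

theorem XX_complete [CompleteSpace E] : CompleteSpace (XX S) := by
  have h : IsClosed (XX S : Set E) := Submodule.isClosed_topologicalClosure _
  exact h.completeSpace_coe

variable {S}

/-- A closed condition on coordinate functions passes to all elements of `XX S`. -/
theorem XX_induction (L : E →L[ℝ] ℝ) (h : ∀ γ, L (S.e γ) = 0) :
    ∀ b ∈ XX S, L b = 0 := by
  have h1 : XX S ≤ LinearMap.ker (L : E →ₗ[ℝ] ℝ) := by
    apply Submodule.topologicalClosure_minimal
    · rw [Submodule.span_le]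
      rintro _ ⟨γ, rfl⟩
      exact h γ
    · exact L.isClosed_ker
  intro b hb
  exact h1 hb

variable (S) in
/-- Evaluation at a point of the ball. -/
noncomputable def ev (x : moBall M) : StrongDual ℝ (XX S) := (S.δ x).comp (XX S).subtypeL

theorem ev_apply (x : moBall M) (b : XX S) : ev S x b = S.δ x b.1 := rfl

theorem norm_ev_le (x : moBall M) : ‖ev S x‖ ≤ 1 := by
  refine ContinuousLinearMap.opNorm_le_bound _ zero_le_one (fun b => ?_)
  rw [ev_apply, one_mul]
  exact S.le_norm x b.1

theorem ev_affine (x y z : moBall M) (a b : ℝ) (hz : z.1 = a • x.1 + b • y.1) :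
    ev S z = a • ev S x + b • ev S y := by
  ext f
  have h := XX_induction (S := S) (S.δ z - a • S.δ x - b • S.δ y) (fun γ => by
      show S.δ z (S.e γ) - a * S.δ x (S.e γ) - b * S.δ y (S.e γ) = 0
      rw [S.δ_e, S.δ_e, S.δ_e, hz]
      simp only [Pi.add_apply, Pi.smul_apply, smul_eq_mul]
      ring) f.1 f.2
  have h' : S.δ z f.1 - a * S.δ x f.1 - b * S.δ y f.1 = 0 := h
  show S.δ z f.1 = a * S.δ x f.1 + b * S.δ y f.1
  linarith

theorem neg_mem_moBall {x : Γ → ℝ} (hx : x ∈ moBall M) : -x ∈ moBall M := by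
  intro F
  simpa using hx F

open Classical in
/-- Extension by zero of a vector with finitely many coordinates. -/
noncomputable def ext0 (F : Finset Γ) (u : F → ℝ) (γ : Γ) : ℝ :=
  if h : γ ∈ F then u ⟨γ, h⟩ else 0

theorem exists_ev_eq (hM : ∀ γ, IsOrlicz (M γ)) (f : StrongDual ℝ (XX S)) (hf : ‖f‖ ≤ 1) :
    ∃ x : moBall M, ev S x = f := by
  classical
  let ξ : Γ → ℝ := fun γ => f ⟨S.e γ, coord_mem S γ⟩
  have hξ : ξ ∈ moBall M := by
    intro F
    by_contra hcon
    push Not at hcon
    let C : Set (F → ℝ) := {u | ∑ γ : F, M γ.1 |u γ| ≤ 1}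
    have hCconv : Convex ℝ C := by
      intro u hu v hv a b ha hb hab
      have key : ∀ γ : F, M γ.1 |(a • u + b • v) γ| ≤ a * M γ.1 |u γ| + b * M γ.1 |v γ| := by
        intro γ
        have h1 : |(a • u + b • v) γ| ≤ a * |u γ| + b * |v γ| := by
          simp only [Pi.add_apply, Pi.smul_apply, smul_eq_mul]
          refine (abs_add_le _ _).trans ?_
          rw [abs_mul, abs_mul, abs_of_nonneg ha, abs_of_nonneg hb]
        refine ((hM γ.1).mono (abs_nonneg _) h1).trans ?_
        exact (hM γ.1).convex.2 (mem_Ici.mpr (abs_nonneg _)) (mem_Ici.mpr (abs_nonneg _)) ha hb hab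
      show ∑ γ : F, M γ.1 |(a • u + b • v) γ| ≤ 1
      calc ∑ γ : F, M γ.1 |(a • u + b • v) γ| ≤ ∑ γ : F, (a * M γ.1 |u γ| + b * M γ.1 |v γ|) :=
            Finset.sum_le_sum (fun γ _ => key γ)
        _ = a * ∑ γ : F, M γ.1 |u γ| + b * ∑ γ : F, M γ.1 |v γ| := by
            rw [Finset.sum_add_distrib, Finset.mul_sum, Finset.mul_sum]
        _ ≤ a * 1 + b * 1 :=
            add_le_add (mul_le_mul_of_nonneg_left hu ha) (mul_le_mul_of_nonneg_left hv hb)
        _ = 1 := by rw [mul_one, mul_one, hab]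
    have hCclosed : IsClosed C := by
      refine isClosed_le (continuous_finsetSum _ (fun γ _ => ?_)) continuous_const
      exact (hM γ.1).cont.comp_continuous ((continuous_apply γ).abs)
        (fun u => mem_Ici.mpr (abs_nonneg _))
    let u0 : F → ℝ := fun γ => ξ γ.1
    have hu0 : u0 ∉ C := by
      intro h
      have h1 : ∑ γ : F, M γ.1 |u0 γ| ≤ 1 := h
      have h2 : ∑ γ : F, M γ.1 |u0 γ| = ∑ γ ∈ F, M γ |ξ γ| :=
        Finset.sum_coe_sort F (fun γ => M γ |ξ γ|)
      rw [h2] at h1
      exact absurd h1 (not_le.mpr hcon)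
    obtain ⟨l, s, hl1, hl2⟩ := geometric_hahn_banach_closed_point hCconv hCclosed hu0
    let c : F → ℝ := fun γ => l (Pi.single γ 1)
    have hl : ∀ u : F → ℝ, l u = ∑ γ : F, c γ * u γ := by
      intro u
      have h1 : u = ∑ γ : F, u γ • (Pi.single γ (1 : ℝ) : F → ℝ) := by
        funext δ
        simp [Finset.sum_apply, Pi.single_apply]
      conv_lhs => rw [h1]
      rw [map_sum]
      refine Finset.sum_congr rfl (fun γ _ => ?_)
      rw [map_smul, smul_eq_mul, mul_comm]
    let b : XX S := ∑ γ : F, c γ • ⟨S.e γ.1, coord_mem S γ.1⟩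
    have hb : ∀ x : moBall M, S.δ x b.1 = l (fun γ => x.1 γ.1) := by
      intro x
      rw [hl, ← ev_apply, map_sum]
      refine Finset.sum_congr rfl (fun γ _ => ?_)
      rw [map_smul, smul_eq_mul, ev_apply, S.δ_e]
    have hfb : f b = l u0 := by
      rw [hl, map_sum]
      refine Finset.sum_congr rfl (fun γ _ => ?_)
      rw [map_smul, smul_eq_mul]
    have hres : ∀ x : moBall M, (fun γ : F => x.1 γ.1) ∈ C := by
      intro x
      show ∑ γ : F, M γ.1 |x.1 γ.1| ≤ 1
      rw [Finset.sum_coe_sort F (fun γ => M γ |x.1 γ|)]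
      exact x.2 F
    have hs : 0 < s := by
      have h0 : (0 : F → ℝ) ∈ C := by
        show ∑ γ : F, M γ.1 |(0 : F → ℝ) γ| ≤ 1
        rw [Finset.sum_eq_zero (fun γ _ => by rw [Pi.zero_apply, abs_zero, (hM γ.1).zero])]
        exact zero_le_one
      have := hl1 0 h0
      rwa [map_zero] at this
    have hnorm : ‖b‖ ≤ s := by
      show ‖b.1‖ ≤ s
      refine S.norm_le _ _ hs.le (fun x => ?_)
      rw [abs_le]
      constructor
      · have h1 := hl1 _ (hres ⟨-x.1, neg_mem_moBall x.2⟩)
        have h2 : (fun γ : F => (-x.1) γ.1) = -(fun γ : F => x.1 γ.1) := rfl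
        rw [h2, map_neg, ← hb x] at h1
        linarith
      · rw [hb x]
        exact (hl1 _ (hres x)).le
    have h1 : f b ≤ s := by
      calc f b ≤ ‖f b‖ := le_abs_self _
        _ ≤ ‖f‖ * ‖b‖ := f.le_opNorm b
        _ ≤ 1 * s := mul_le_mul hf hnorm (norm_nonneg _) zero_le_one
        _ = s := one_mul s
    rw [hfb] at h1
    linarith
  refine ⟨⟨ξ, hξ⟩, ?_⟩
  obtain ⟨g, hg1, -⟩ := exists_extension_norm_eq (XX S) f
  ext b
  have h := XX_induction (S := S) (g - S.δ ⟨ξ, hξ⟩) (fun γ => by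
    show g (S.e γ) - S.δ ⟨ξ, hξ⟩ (S.e γ) = 0
    have := hg1 ⟨S.e γ, coord_mem S γ⟩
    rw [sub_eq_zero, S.δ_e]
    exact this) b.1 b.2
  have h' : g b.1 - S.δ ⟨ξ, hξ⟩ b.1 = 0 := h
  rw [ev_apply, ← hg1 b]
  linarith

theorem ev_injective : Function.Injective (ev S) := by
  intro x y h
  apply Subtype.ext
  funext γ
  rw [← S.δ_e x γ, ← S.δ_e y γ]
  exact congrArg (fun L : StrongDual ℝ (XX S) => L ⟨S.e γ, coord_mem S γ⟩) h

variable (S) in
/-- The bijection of the ball with the dual ball. -/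
noncomputable def evEquiv (hM : ∀ γ, IsOrlicz (M γ)) : moBall M ≃ dualBall (XX S) :=
  Equiv.ofBijective (fun x => ⟨StrongDual.toWeakDual (ev S x), norm_ev_le x⟩) (by
    constructor
    · intro x y h
      exact ev_injective (congrArg (fun z : dualBall (XX S) => WeakDual.toStrongDual z.1) h)
    · rintro ⟨f, hf⟩
      obtain ⟨x, hx⟩ := exists_ev_eq hM (WeakDual.toStrongDual f) hf
      exact ⟨x, Subtype.ext (by show StrongDual.toWeakDual (ev S x) = f; rw [hx]; rfl)⟩)

theorem evEquiv_coe (hM : ∀ γ, IsOrlicz (M γ)) (x : moBall M) :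
    (evEquiv S hM x).1 = StrongDual.toWeakDual (ev S x) := rfl

theorem continuous_evEquiv (hM : ∀ γ, IsOrlicz (M γ)) : Continuous (evEquiv S hM) := by
  refine Continuous.subtype_mk ?_ _
  apply WeakDual.continuous_of_continuous_eval
  intro b
  exact S.cont b.1

variable (S) in
/-- The homeomorphism of the ball with the dual ball. -/
noncomputable def evHomeo (hM : ∀ γ, IsOrlicz (M γ)) : moBall M ≃ₜ dualBall (XX S) :=
  haveI : CompactSpace (moBall M) := isCompact_iff_compactSpace.mp (isCompact_moBall hM)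
  Continuous.homeoOfEquivCompactToT2 (f := evEquiv S hM) (continuous_evEquiv hM)

end

section

variable {E : Type} [NormedAddCommGroup E] [NormedSpace ℝ E] (S : FunSpace MM E)

theorem dual_homeo : IsHilbertBall (dualBall (XX S)) := by
  obtain ⟨h⟩ := nonempty_homeo MM_isOrlicz
  exact ⟨lp (fun _ : ℕ → ℕ => ℝ) 2, inferInstance, inferInstance, inferInstance,
    ⟨(evHomeo S MM_isOrlicz).symm.trans h⟩⟩

theorem dual_no_affine (Y : Type*) [NormedAddCommGroup Y] [NormedSpace ℝ Y]
    (g : WeakDual ℝ (XX S) → WeakSpace ℝ Y) (hg : ContinuousOn g (dualBall (XX S)))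
    (hinj : Set.InjOn g (dualBall (XX S)))
    (haff : ∀ x ∈ dualBall (XX S), ∀ y ∈ dualBall (XX S), ∀ a b : ℝ, 0 ≤ a → 0 ≤ b →
      a + b = 1 → g (a • x + b • y) = a • g x + b • g y) : False := by
  refine no_affine (Y := Y)
    (fun x => (toWeakSpace ℝ Y).symm (g (evEquiv S MM_isOrlicz x).1)) ?_ ?_ ?_
  · intro l
    have h1 : Continuous (fun x : moBall MM => g (evEquiv S MM_isOrlicz x).1) :=
      hg.comp_continuous (continuous_subtype_val.comp (continuous_evEquiv MM_isOrlicz))
        (fun x => (evEquiv S MM_isOrlicz x).2)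
    have h2 : Continuous (fun y : WeakSpace ℝ Y => l ((toWeakSpace ℝ Y).symm y)) :=
      WeakBilin.eval_continuous (topDualPairing ℝ Y).flip l
    exact h2.comp h1
  · intro x y h
    have h1 : g (evEquiv S MM_isOrlicz x).1 = g (evEquiv S MM_isOrlicz y).1 :=
      (toWeakSpace ℝ Y).symm.injective h
    exact (evEquiv S MM_isOrlicz).injective
      (Subtype.ext (hinj (evEquiv S MM_isOrlicz x).2 (evEquiv S MM_isOrlicz y).2 h1))
  · intro x y z a b ha hb hab hz
    have h1 : (evEquiv S MM_isOrlicz z).1 =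
        a • (evEquiv S MM_isOrlicz x).1 + b • (evEquiv S MM_isOrlicz y).1 := by
      rw [evEquiv_coe, evEquiv_coe, evEquiv_coe, ev_affine x y z a b hz]
      rfl
    show (toWeakSpace ℝ Y).symm (g (evEquiv S MM_isOrlicz z).1) = _
    rw [h1, haff _ (evEquiv S MM_isOrlicz x).2 _ (evEquiv S MM_isOrlicz y).2 a b ha hb hab, map_add,
      map_smul, map_smul]

end

/-- The space of bounded continuous functions on the ball. -/
noncomputable def bcf {Γ : Type} {M : Γ → ℝ → ℝ} [CompactSpace (moBall M)] :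
    FunSpace M (moBall M →ᵇ ℝ) where
  e γ := BoundedContinuousFunction.mkOfCompact
    ⟨fun x => x.1 γ, (continuous_apply γ).comp continuous_subtype_val⟩
  δ x := BoundedContinuousFunction.evalCLM ℝ x
  δ_e _ _ := rfl
  cont b := b.continuous
  le_norm x b := b.norm_coe_le_norm x
  norm_le _ _ hs h := (BoundedContinuousFunction.norm_le hs).mpr h

instance : CompactSpace (moBall MM) :=
  isCompact_iff_compactSpace.mp (isCompact_moBall MM_isOrlicz)

end Pool.Agent.W_MP_3ca6e9_an
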