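import Pool.Agent.W_MP_3ca6e9_an.Ball

/-!
# A Musielak-Orlicz ball without affine embeddings in weak topologies
-/

namespace Pool.Agent.W_MP_3ca6e9_an

open Set Filter Topology

/-- The weights `w(γ, m) = ∏_{i < m} (1/4) (1/2)^{γ(i)}`. -/
noncomputable def wt (γ : ℕ → ℕ) (m : ℕ) : ℝ := ∏ i ∈ Finset.range m, (1 / 4) * (1 / 2) ^ γ i

/-- The Orlicz function attached to `γ ∈ ℕ^ℕ`:
`M_γ(t) = ∑ₘ w(γ, m) max(t - 2⁻ᵐ, 0)`. -/
noncomputable def MM (γ : ℕ → ℕ) (t : ℝ) : ℝ := ∑' m, wt γ m * max (t - (1 / 2) ^ m) 0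

theorem wt_pos (γ : ℕ → ℕ) (m : ℕ) : 0 < wt γ m :=
  Finset.prod_pos (fun i _ => by positivity)

theorem wt_le (γ : ℕ → ℕ) (m : ℕ) : wt γ m ≤ (1 / 4) ^ m := by
  unfold wt
  calc ∏ i ∈ Finset.range m, ((1 / 4 : ℝ) * (1 / 2) ^ γ i) ≤ ∏ i ∈ Finset.range m, (1 / 4 : ℝ) := by
        refine Finset.prod_le_prod (fun i _ => by positivity) (fun i _ => ?_)
        have : ((1 : ℝ) / 2) ^ γ i ≤ 1 := pow_le_one₀ (by norm_num) (by norm_num)
        nlinarith
    _ = (1 / 4) ^ m := by rw [Finset.prod_const, Finset.card_range]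

theorem wt_le' (γ : ℕ → ℕ) {n m : ℕ} (h : n < m) : wt γ m ≤ (1 / 4) ^ m * (1 / 2) ^ γ n := by
  unfold wt
  rw [Finset.prod_mul_distrib, Finset.prod_const, Finset.card_range]
  refine mul_le_mul_of_nonneg_left ?_ (by positivity)
  have hn : n ∈ Finset.range m := Finset.mem_range.mpr h
  rw [← Finset.mul_prod_erase _ _ hn]
  have h1 : ∏ x ∈ (Finset.range m).erase n, ((1 : ℝ) / 2) ^ γ x ≤ 1 :=
    Finset.prod_le_one (fun i _ => by positivity)
      (fun i _ => pow_le_one₀ (by norm_num) (by norm_num))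
  have h2 : (0 : ℝ) < (1 / 2) ^ γ n := by positivity
  nlinarith

theorem term_nonneg (γ : ℕ → ℕ) (t : ℝ) (m : ℕ) : 0 ≤ wt γ m * max (t - (1 / 2) ^ m) 0 :=
  mul_nonneg (wt_pos γ m).le (le_max_right _ _)

theorem summable_quarter : Summable (fun m : ℕ => ((1 : ℝ) / 4) ^ m) :=
  summable_geometric_of_lt_one (by norm_num) (by norm_num)

theorem max_le_abs (t : ℝ) (m : ℕ) : max (t - (1 / 2) ^ m) 0 ≤ |t| := by
  refine max_le ?_ (abs_nonneg t)
  have : (0 : ℝ) < (1 / 2) ^ m := by positivity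
  linarith [le_abs_self t]

theorem summable_term (γ : ℕ → ℕ) (t : ℝ) :
    Summable (fun m => wt γ m * max (t - (1 / 2) ^ m) 0) := by
  refine Summable.of_nonneg_of_le (term_nonneg γ t) (fun m => ?_)
    (summable_quarter.mul_right |t|)
  exact mul_le_mul (wt_le γ m) (max_le_abs t m) (le_max_right _ _) (by positivity)

theorem MM_convex (γ : ℕ → ℕ) : ConvexOn ℝ univ (MM γ) := by
  refine ⟨convex_univ, fun s _ t _ a b ha hb hab => ?_⟩
  simp only [MM, smul_eq_mul]
  rw [← tsum_mul_left, ← tsum_mul_left,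
    ← ((summable_term γ s).mul_left a).tsum_add ((summable_term γ t).mul_left b)]
  refine (summable_term γ _).tsum_le_tsum (fun m => ?_)
    (((summable_term γ s).mul_left a).add ((summable_term γ t).mul_left b))
  have h1 : max (a * s + b * t - (1 / 2) ^ m) 0 ≤
      a * max (s - (1 / 2) ^ m) 0 + b * max (t - (1 / 2) ^ m) 0 := by
    refine max_le ?_ (add_nonneg (mul_nonneg ha (le_max_right _ _))
      (mul_nonneg hb (le_max_right _ _)))
    have h2 : a * s + b * t - (1 / 2 : ℝ) ^ m =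
        a * (s - (1 / 2) ^ m) + b * (t - (1 / 2) ^ m) := by
      have : (1 / 2 : ℝ) ^ m = (a + b) * (1 / 2) ^ m := by rw [hab, one_mul]
      linear_combination (-1 : ℝ) * this
    rw [h2]
    exact add_le_add (mul_le_mul_of_nonneg_left (le_max_left _ _) ha)
      (mul_le_mul_of_nonneg_left (le_max_left _ _) hb)
  calc wt γ m * max (a * s + b * t - (1 / 2) ^ m) 0
      ≤ wt γ m * (a * max (s - (1 / 2) ^ m) 0 + b * max (t - (1 / 2) ^ m) 0) :=
        mul_le_mul_of_nonneg_left h1 (wt_pos γ m).le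
    _ = _ := by ring

theorem MM_isOrlicz (γ : ℕ → ℕ) : IsOrlicz (MM γ) where
  zero := by
    unfold MM
    have : ∀ m : ℕ, wt γ m * max ((0 : ℝ) - (1 / 2) ^ m) 0 = 0 := by
      intro m
      have h : (0 : ℝ) < (1 / 2) ^ m := by positivity
      rw [max_eq_right (by linarith), mul_zero]
    simp only [this, tsum_zero]
  pos t ht := by
    obtain ⟨m, hm⟩ := exists_pow_lt_of_lt_one ht (y := (1 / 2 : ℝ)) (by norm_num)
    refine (summable_term γ t).tsum_pos (term_nonneg γ t) m ?_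
    exact mul_pos (wt_pos γ m) (lt_max_of_lt_left (by linarith))
  convex := (MM_convex γ).subset (subset_univ _) (convex_Ici 0)
  cont := by
    have h := (MM_convex γ).continuousOn_interior
    rw [interior_univ] at h
    exact h.mono (subset_univ _)

theorem tsum_quarter_shift : ∑' m : ℕ, (if 0 < m then ((1 : ℝ) / 4) ^ m else 0) ≤ 1 / 3 := by
  have h0 : ∑' m : ℕ, ((1 : ℝ) / 4) ^ m = 4 / 3 := by
    rw [tsum_geometric_of_lt_one (by norm_num) (by norm_num)]; norm_num
  have hs : Summable (fun m : ℕ => if 0 < m then ((1 : ℝ) / 4) ^ m else 0) := by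
    refine Summable.of_nonneg_of_le (fun m => ?_) (fun m => ?_) summable_quarter
    · split_ifs <;> positivity
    · split_ifs
      · exact le_refl _
      · positivity
  rw [hs.tsum_eq_zero_add]
  rw [summable_quarter.tsum_eq_zero_add] at h0
  simp only [lt_irrefl, if_false, zero_add, Nat.succ_pos, if_true, pow_zero] at h0 ⊢
  linarith

/-- At the height `2⁻ⁿ` the function `M_γ` is small if `γ(n)` is large. -/
theorem MM_le (γ : ℕ → ℕ) (n : ℕ) : MM γ ((1 / 2) ^ n) ≤ (1 / 3) * (1 / 2) ^ γ n := by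
  have hs : Summable (fun m : ℕ => (1 / 2 : ℝ) ^ γ n * (if 0 < m then ((1 : ℝ) / 4) ^ m else 0)) := by
    apply Summable.mul_left
    refine Summable.of_nonneg_of_le (fun m => ?_) (fun m => ?_) summable_quarter
    · split_ifs <;> positivity
    · split_ifs
      · exact le_refl _
      · positivity
  calc MM γ ((1 / 2) ^ n) ≤
        ∑' m : ℕ, (1 / 2 : ℝ) ^ γ n * (if 0 < m then ((1 : ℝ) / 4) ^ m else 0) := by
        refine (summable_term γ _).tsum_le_tsum (fun m => ?_) hs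
        rcases le_or_gt m n with h | h
        · have h1 : ((1 : ℝ) / 2) ^ n ≤ (1 / 2) ^ m :=
            pow_le_pow_of_le_one (by norm_num) (by norm_num) h
          rw [max_eq_right (by linarith), mul_zero]
          split_ifs <;> positivity
        · rw [if_pos (by omega)]
          have h1 : max (((1 : ℝ) / 2) ^ n - (1 / 2) ^ m) 0 ≤ 1 := by
            refine max_le ?_ zero_le_one
            have h2 : ((1 : ℝ) / 2) ^ n ≤ 1 := pow_le_one₀ (by norm_num) (by norm_num)
            have h3 : (0 : ℝ) < (1 / 2) ^ m := by positivity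
            linarith
          calc wt γ m * max (((1 : ℝ) / 2) ^ n - (1 / 2) ^ m) 0 ≤ wt γ m * 1 :=
                mul_le_mul_of_nonneg_left h1 (wt_pos γ m).le
            _ ≤ (1 / 4) ^ m * (1 / 2) ^ γ n := by rw [mul_one]; exact wt_le' γ h
            _ = _ := mul_comm _ _
    _ = (1 / 2 : ℝ) ^ γ n * ∑' m : ℕ, (if 0 < m then ((1 : ℝ) / 4) ^ m else 0) := tsum_mul_left
    _ ≤ (1 / 2 : ℝ) ^ γ n * (1 / 3) :=
        mul_le_mul_of_nonneg_left tsum_quarter_shift (by positivity)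
    _ = _ := mul_comm _ _

theorem MM_one_le (γ : ℕ → ℕ) : MM γ 1 ≤ 1 := by
  have h := MM_le γ 0
  rw [pow_zero] at h
  have h1 : ((1 : ℝ) / 2) ^ γ 0 ≤ 1 := pow_le_one₀ (by norm_num) (by norm_num)
  linarith

/-! ### Points of the ball -/

open Classical in
/-- The unit vector `e_γ`. -/
noncomputable def unitVec (γ : ℕ → ℕ) : (ℕ → ℕ) → ℝ := Pi.single γ 1

theorem sum_single_le (γ : ℕ → ℕ) (c : ℝ) (hc : MM γ |c| ≤ 1) (F : Finset (ℕ → ℕ)) (x : (ℕ → ℕ) → ℝ)
    (hx : x γ = c) (hx' : ∀ δ, δ ≠ γ → x δ = 0) : ∑ δ ∈ F, MM δ |x δ| ≤ 1 := by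
  classical
  have h1 : ∀ δ, δ ≠ γ → MM δ |x δ| = 0 := by
    intro δ hδ
    rw [hx' δ hδ, abs_zero, (MM_isOrlicz δ).zero]
  by_cases hF : γ ∈ F
  · rw [Finset.sum_eq_single_of_mem γ hF (fun δ _ hδ => h1 δ hδ), hx]
    exact hc
  · rw [Finset.sum_eq_zero (fun δ hδ => h1 δ (fun h => hF (h ▸ hδ)))]
    exact zero_le_one

theorem unitVec_mem (γ : ℕ → ℕ) : unitVec γ ∈ moBall MM := by
  classical
  intro F
  refine sum_single_le γ 1 (by rw [abs_one]; exact MM_one_le γ) F _ ?_ ?_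
  · simp [unitVec]
  · intro δ hδ
    simp [unitVec, hδ]

theorem zero_mem_moBall : (0 : (ℕ → ℕ) → ℝ) ∈ moBall MM := by
  intro F
  rw [Finset.sum_eq_zero (fun δ _ => by
    rw [Pi.zero_apply, abs_zero, (MM_isOrlicz δ).zero])]
  exact zero_le_one

open Classical in
/-- The vector with entries `2⁻ⁿ` at the points `g k`, `k ∈ A`, where `g k n = k`. -/
noncomputable def vecA (g : ℕ → ℕ → ℕ) (n : ℕ) (A : ℕ → Bool) (γ : ℕ → ℕ) : ℝ :=
  if γ = g (γ n) ∧ A (γ n) = true then (1 / 2) ^ n else 0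

theorem vecA_mem (g : ℕ → ℕ → ℕ) (n : ℕ) (A : ℕ → Bool) : vecA g n A ∈ moBall MM := by
  classical
  intro F
  have h1 : ∀ γ, MM γ |vecA g n A γ| ≤ if γ = g (γ n) then (1 / 3 : ℝ) * (1 / 2) ^ γ n else 0 := by
    intro γ
    by_cases h : γ = g (γ n)
    · rw [if_pos h]
      by_cases h2 : A (γ n) = true
      · rw [vecA, if_pos ⟨h, h2⟩, abs_of_pos (by positivity)]
        exact MM_le γ n
      · rw [vecA, if_neg (fun h3 => h2 h3.2), abs_zero, (MM_isOrlicz γ).zero]
        positivity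
    · rw [if_neg h, vecA, if_neg (fun h3 => h h3.1), abs_zero, (MM_isOrlicz γ).zero]
  have hinj : Set.InjOn (fun γ : ℕ → ℕ => γ n)
      ((F.filter (fun γ => γ = g (γ n)) : Finset (ℕ → ℕ)) : Set (ℕ → ℕ)) := by
    intro γ hγ δ hδ hγδ
    simp only [Finset.coe_filter, mem_ofPred_eq] at hγ hδ
    have h3 : γ n = δ n := hγδ
    rw [hγ.2, hδ.2, h3]
  have hs : Summable (fun k : ℕ => (1 / 3 : ℝ) * (1 / 2) ^ k) :=
    (summable_geometric_of_lt_one (by norm_num) (by norm_num)).mul_left _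
  calc ∑ γ ∈ F, MM γ |vecA g n A γ|
      ≤ ∑ γ ∈ F, if γ = g (γ n) then (1 / 3 : ℝ) * (1 / 2) ^ γ n else 0 :=
        Finset.sum_le_sum (fun γ _ => h1 γ)
    _ = ∑ γ ∈ F.filter (fun γ => γ = g (γ n)), (1 / 3 : ℝ) * (1 / 2) ^ γ n := by
        rw [Finset.sum_filter]
    _ = ∑ k ∈ (F.filter (fun γ => γ = g (γ n))).image (fun γ => γ n), (1 / 3 : ℝ) * (1 / 2) ^ k := by
        rw [Finset.sum_image hinj]
    _ ≤ ∑' k : ℕ, (1 / 3 : ℝ) * (1 / 2) ^ k := hs.sum_le_tsum _ (fun k _ => by positivity)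
    _ = 2 / 3 := by
        rw [tsum_mul_left, tsum_geometric_of_lt_one (by norm_num) (by norm_num)]; norm_num
    _ ≤ 1 := by norm_num

theorem continuous_vecA (g : ℕ → ℕ → ℕ) (n : ℕ) : Continuous (vecA g n) := by
  classical
  refine continuous_pi (fun γ => ?_)
  unfold vecA
  by_cases h : γ = g (γ n)
  · have : (fun A : ℕ → Bool => if γ = g (γ n) ∧ A (γ n) = true then ((1 : ℝ) / 2) ^ n else 0) =
        (fun b : Bool => if b = true then ((1 : ℝ) / 2) ^ n else 0) ∘ (fun A : ℕ → Bool => A (γ n)) := by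
      funext A
      simp only [Function.comp]
      by_cases h2 : A (γ n) = true
      · rw [if_pos ⟨h, h2⟩, if_pos h2]
      · rw [if_neg (fun h3 => h2 h3.2), if_neg h2]
    rw [this]
    exact continuous_of_discreteTopology.comp (continuous_apply _)
  · have : (fun A : ℕ → Bool => if γ = g (γ n) ∧ A (γ n) = true then ((1 : ℝ) / 2) ^ n else 0) =
        fun _ => 0 := by
      funext A
      rw [if_neg (fun h3 => h h3.1)]
    rw [this]
    exact continuous_const

/-- Switching on the coordinate `k`. -/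
theorem vecA_update (g : ℕ → ℕ → ℕ) (n : ℕ) (hg : ∀ k, g k n = k) (A : ℕ → Bool) (k : ℕ)
    (hk : A k = false) :
    vecA g n (Function.update A k true) = vecA g n A + (1 / 2 : ℝ) ^ n • unitVec (g k) := by
  classical
  funext γ
  simp only [vecA, Pi.add_apply, Pi.smul_apply, smul_eq_mul, unitVec]
  by_cases h : γ = g (γ n)
  · by_cases h2 : γ n = k
    · have h3 : γ = g k := by rw [h, h2]
      subst h3
      simp [hg, hk]
    · have h3 : γ ≠ g k := by
        rintro rfl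
        exact h2 (hg k)
      rw [Function.update_of_ne h2, Pi.single_eq_of_ne h3, mul_zero, add_zero]
  · have h3 : γ ≠ g k := by
      rintro rfl
      exact h (by rw [hg k])
    rw [if_neg (fun h4 => h h4.1), if_neg (fun h4 => h h4.1), Pi.single_eq_of_ne h3]
    simp

end Pool.Agent.W_MP_3ca6e9_an
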