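import Pool.Agent.W_MP_3ca6e9_an.Flat

/-!
# No affine embedding in a weak topology
-/

namespace Pool.Agent.W_MP_3ca6e9_an

open Set Filter Topology

/-- Splitting lemma: if `ℕ^ℕ` is a countable union of sets `S j`, then one of the sets has elements
`γ_k` (`k ∈ ℕ`) with `γ_k(n) = k`, for some `n`. -/
theorem exists_split (S : ℕ → Set (ℕ → ℕ)) (hS : ∀ γ, ∃ j, γ ∈ S j) :
    ∃ j n, ∀ k, ∃ γ ∈ S j, γ n = k := by
  by_contra hcon
  push Not at hcon
  choose κ hκ using hcon
  -- the diagonal sequence
  obtain ⟨j, hj⟩ := hS (fun n => κ n n)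
  exact hκ j j _ hj rfl

section

variable {Y : Type*} [NormedAddCommGroup Y] [NormedSpace ℝ Y]

/-- A weakly continuous map from the Cantor space into a normed space cannot change by a vector of
norm at least `δ` at each switching of a coordinate. -/
theorem cantor_contradiction (f : (ℕ → Bool) → Y)
    (hf : ∀ l : StrongDual ℝ Y, Continuous (fun A => l (f A))) (δ : ℝ) (hδ : 0 < δ)
    (h : ∀ A k, A k = false → δ ≤ ‖f (Function.update A k true) - f A‖) : False := by
  -- the separable closed subspace
  let D : Set (ℕ → Bool) := {A | ∃ N, ∀ k, N ≤ k → A k = false}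
  have hDc : D.Countable := by
    have : D ⊆ ⋃ N : ℕ, range (fun p : Fin N → Bool => fun k => if h : k < N then p ⟨k, h⟩ else false) := by
      rintro A ⟨N, hN⟩
      refine mem_iUnion.mpr ⟨N, fun i => A i, ?_⟩
      funext k
      by_cases hk : k < N
      · simp [hk]
      · simp [hk, hN k (not_lt.mp hk)]
    exact (countable_iUnion (fun N => countable_range _)).mono this
  have hDd : ∀ A : ℕ → Bool, ∃ u : ℕ → (ℕ → Bool), (∀ i, u i ∈ D) ∧ Tendsto u atTop (𝓝 A) := by
    intro A
    refine ⟨fun N k => if k < N then A k else false, fun N => ⟨N, fun k hk => by simp [not_lt.mpr hk]⟩, ?_⟩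
    rw [tendsto_pi_nhds]
    intro k
    refine tendsto_const_nhds.congr' ?_
    filter_upwards [eventually_gt_atTop k] with N hN
    simp [hN]
  let Z : Submodule ℝ Y := (Submodule.span ℝ (f '' D)).topologicalClosure
  have hZsep : TopologicalSpace.IsSeparable (Z : Set Y) := by
    have h1 : TopologicalSpace.IsSeparable (f '' D) := (hDc.image f).isSeparable
    have h2 : TopologicalSpace.IsSeparable (Submodule.span ℝ (f '' D) : Set Y) := h1.span
    rw [show (Z : Set Y) = closure (Submodule.span ℝ (f '' D) : Set Y) from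
      Submodule.topologicalClosure_coe _]
    exact h2.closure
  have hfZ : ∀ A, f A ∈ Z := by
    intro A
    by_contra hA
    have hclosed : IsClosed (Z : Set Y) := Submodule.isClosed_topologicalClosure _
    obtain ⟨l, u, hl1, hl2⟩ := geometric_hahn_banach_closed_point (Z.convex) hclosed hA
    -- `l` vanishes on `Z`
    have hlZ : ∀ z ∈ Z, l z = 0 := by
      intro z hz
      by_contra hne
      have h1 := hl1 (((|u| + 1) / l z) • z) (Z.smul_mem _ hz)
      rw [map_smul, smul_eq_mul, div_mul_cancel₀ _ hne] at h1
      have := le_abs_self u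
      linarith
    have h0 : l (f A) = 0 := by
      obtain ⟨u', hu', hlim⟩ := hDd A
      have h1 : Tendsto (fun i => l (f (u' i))) atTop (𝓝 (l (f A))) :=
        ((hf l).tendsto A).comp hlim
      have h2 : (fun i => l (f (u' i))) = fun _ => 0 := by
        funext i
        exact hlZ _ (Submodule.le_topologicalClosure _ (Submodule.subset_span ⟨u' i, hu' i, rfl⟩))
      rw [h2] at h1
      exact (tendsto_nhds_unique tendsto_const_nhds h1).symm
    have h1 := hl1 0 Z.zero_mem
    rw [map_zero] at h1
    rw [h0] at hl2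
    linarith
  obtain ⟨c, hc, hcl⟩ := hZsep
  -- the closed sets
  have hne : c.Nonempty := by
    by_contra hc0
    rw [not_nonempty_iff_eq_empty] at hc0
    rw [hc0, closure_empty] at hcl
    exact hcl Z.zero_mem
  obtain ⟨e, he⟩ := hc.exists_eq_range hne
  let C : ℕ → Set (ℕ → Bool) := fun i => {A | ‖f A - e i‖ ≤ δ / 3}
  have hCclosed : ∀ i, IsClosed (C i) := by
    intro i
    have h1 : C i = ⋂ l : {l : StrongDual ℝ Y // ‖l‖ ≤ 1}, {A | l.1 (f A) - l.1 (e i) ≤ δ / 3} := by
      ext A
      simp only [C, mem_iInter]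
      constructor
      · rintro (hA : ‖f A - e i‖ ≤ δ / 3) ⟨l, hl⟩
        show l (f A) - l (e i) ≤ δ / 3
        rw [← map_sub]
        calc l (f A - e i) ≤ ‖l (f A - e i)‖ := le_abs_self _
          _ ≤ ‖l‖ * ‖f A - e i‖ := l.le_opNorm _
          _ ≤ 1 * (δ / 3) := mul_le_mul hl hA (norm_nonneg _) zero_le_one
          _ = δ / 3 := one_mul _
      · intro hA
        show ‖f A - e i‖ ≤ δ / 3
        obtain ⟨l, hl1, hl2⟩ := exists_dual_vector'' ℝ (f A - e i)
        have := hA ⟨l, hl1⟩
        have h3 : l (f A) - l (e i) ≤ δ / 3 := this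
        rw [← map_sub, hl2] at h3
        exact h3
    rw [h1]
    exact isClosed_iInter (fun l => isClosed_le ((hf l.1).sub continuous_const) continuous_const)
  have hCcover : ⋃ i, C i = univ := by
    rw [eq_univ_iff_forall]
    intro A
    have h1 := hcl (hfZ A)
    rw [Metric.mem_closure_iff] at h1
    obtain ⟨y, hy, hdist⟩ := h1 (δ / 3) (by positivity)
    rw [he] at hy
    obtain ⟨i, rfl⟩ := hy
    refine mem_iUnion.mpr ⟨i, ?_⟩
    show ‖f A - e i‖ ≤ δ / 3
    rw [← dist_eq_norm]
    exact hdist.le
  obtain ⟨i, A, hA⟩ := nonempty_interior_of_iUnion_of_closed hCclosed hCcover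
  -- switching a far coordinate stays in the interior
  have hA0 : Tendsto (fun k => Function.update A k false) atTop (𝓝 A) := by
    rw [tendsto_pi_nhds]
    intro m
    refine tendsto_const_nhds.congr' ?_
    filter_upwards [eventually_gt_atTop m] with k hk
    rw [Function.update_of_ne (by omega)]
  have hA1 : Tendsto (fun k => Function.update A k true) atTop (𝓝 A) := by
    rw [tendsto_pi_nhds]
    intro m
    refine tendsto_const_nhds.congr' ?_
    filter_upwards [eventually_gt_atTop m] with k hk
    rw [Function.update_of_ne (by omega)]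
  have hnhds : interior (C i) ∈ 𝓝 A := isOpen_interior.mem_nhds hA
  obtain ⟨k, hk0, hk1⟩ := ((hA0.eventually hnhds).and (hA1.eventually hnhds)).exists
  have h1' : Function.update A k false ∈ C i := interior_subset hk0
  have h2' : Function.update A k true ∈ C i := interior_subset hk1
  have h1 : ‖f (Function.update A k false) - e i‖ ≤ δ / 3 := h1'
  have h2 : ‖f (Function.update A k true) - e i‖ ≤ δ / 3 := h2'
  have h3 := h (Function.update A k false) k (by simp)
  rw [Function.update_idem] at h3
  have h4 : ‖f (Function.update A k true) - f (Function.update A k false)‖ ≤ δ / 3 + δ / 3 := by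
    calc _ = ‖(f (Function.update A k true) - e i) - (f (Function.update A k false) - e i)‖ := by
          congr 1; abel
      _ ≤ _ := norm_sub_le _ _
      _ ≤ _ := add_le_add h2 h1
  linarith

/-- The flat Musielak-Orlicz ball has no injective continuous affine map into a normed space with
its weak topology. -/
theorem no_affine (f : moBall MM → Y)
    (hf : ∀ l : StrongDual ℝ Y, Continuous (fun x => l (f x)))
    (hinj : Function.Injective f)
    (haff : ∀ (x y z : moBall MM) (a b : ℝ), 0 ≤ a → 0 ≤ b → a + b = 1 →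
      z.1 = a • x.1 + b • y.1 → f z = a • f x + b • f y) : False := by
  let o : moBall MM := ⟨0, zero_mem_moBall⟩
  let u : (ℕ → ℕ) → moBall MM := fun γ => ⟨unitVec γ, unitVec_mem γ⟩
  have hne : ∀ γ, 0 < ‖f (u γ) - f o‖ := by
    classical
    intro γ
    rw [norm_pos_iff, sub_ne_zero]
    intro h
    have h1 := congrArg (fun x : moBall MM => x.1 γ) (hinj h)
    simp [u, o, unitVec] at h1
  obtain ⟨j, n, hjn⟩ := exists_split (fun j => {γ | 1 / ((j : ℝ) + 1) < ‖f (u γ) - f o‖})
    (fun γ => exists_nat_one_div_lt (hne γ))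
  choose g hg1 hg2 using hjn
  let c : ℝ := (1 / 2) ^ n
  have hc : 0 < c := by positivity
  let F : (ℕ → Bool) → Y := fun A => f ⟨vecA g n A, vecA_mem g n A⟩
  refine cantor_contradiction F (fun l => ?_) (c * (1 / ((j : ℝ) + 1))) (by positivity) ?_
  · exact (hf l).comp ((continuous_vecA g n).subtype_mk _)
  · intro A k hk
    have hup := vecA_update g n hg2 A k hk
    -- the four points
    let p : moBall MM := ⟨vecA g n A, vecA_mem g n A⟩
    let q : moBall MM := ⟨vecA g n (Function.update A k true), vecA_mem g n _⟩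
    let a : ℝ := 1 / (1 + c)
    let b : ℝ := c / (1 + c)
    have ha : 0 ≤ a := by positivity
    have hb : 0 ≤ b := by positivity
    have hab : a + b = 1 := by simp only [a, b]; field_simp
    have hbc : b = c * a := by simp only [a, b]; field_simp
    have hz1 : a • p.1 + b • (u (g k)).1 = a • q.1 + b • o.1 := by
      show a • vecA g n A + b • unitVec (g k) = a • vecA g n (Function.update A k true) + b • 0
      rw [hup, smul_add, smul_zero, add_zero, smul_smul, hbc, mul_comm]
    have hzmem : a • p.1 + b • (u (g k)).1 ∈ moBall MM :=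
      convex_moBall (fun γ => MM_isOrlicz γ) p.2 (u (g k)).2 ha hb hab
    have e1 := haff p (u (g k)) ⟨_, hzmem⟩ a b ha hb hab rfl
    have e2 := haff q o ⟨_, hzmem⟩ a b ha hb hab hz1
    rw [e1] at e2
    have e3 : a • (f q - f p) = (a * c) • (f (u (g k)) - f o) := by
      rw [smul_sub, smul_sub, mul_comm a c, ← hbc]
      have := e2
      rw [sub_eq_sub_iff_add_eq_add]
      rw [add_comm (b • f (u (g k))) _, this]
    have ha' : a ≠ 0 := by positivity
    have e4 : f q - f p = c • (f (u (g k)) - f o) := by
      have := congrArg (fun y => a⁻¹ • y) e3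
      simpa [smul_smul, ha', ← mul_assoc] using this
    show c * (1 / ((j : ℝ) + 1)) ≤ ‖f q - f p‖
    rw [e4, norm_smul, Real.norm_of_nonneg hc.le]
    exact mul_le_mul_of_nonneg_left (le_of_lt (hg1 k)) hc.le

end

end Pool.Agent.W_MP_3ca6e9_an
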